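import Mathlib
import Pool.Agent.TH705.SM.Inv

set_option autoImplicit false

/-!
# The standard map: mixing up to times `n ≪ |a|` and approximate ergodicity, for every parameter

`S_a (x, y) = (2 x - y + a sin 2 π x, x)` on the torus `𝕋 × 𝕋`, `𝕋 = ℝ / ℤ`, Lebesgue measure `m`.
A *rectangle* is a set `E × J` (or `J × E`) with `E ⊆ 𝕋` an arbitrary measurable set and `J ⊆ 𝕋` an
arc (an open ball of `𝕋`); for instance every ball of the torus in the sup metric.

There is an absolute constant `C` such that for **every** real parameter `a` with `|a| ≥ 1`: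

1. for all rectangles `Q, Q'` (of the same kind) and every `n ≥ 3`
   `|m (S_a⁻ⁿ Q ∩ Q') - m(Q) m(Q')| ≤ C (n / |a|) ^ (1/2)`;
2. every measurable `f` with `|f| ≤ 1` and `f ∘ S_a ^ k = z f` almost everywhere (`k ≥ 1`,
   `|z| = 1`) satisfies `|∫_Q f dm - m(Q) ∫ f dm| ≤ C (k / |a|) ^ (1/6)` for every rectangle `Q`;
3. every measurable set `A` which is invariant (mod `m`) under `S_a ^ k` satisfies
   `|m(A ∩ Q) - m(A) m(Q)| ≤ C (k / |a|) ^ (1/6)` for every rectangle `Q`.

So for large `|a|` every invariant set of `S_a` (in particular every union of elliptic islands and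
every ergodic component) is equidistributed in the torus up to an error `C |a| ^ (-1/6)`: `S_a` is
approximately ergodic, for all large parameters without exception.
-/

namespace Pool.Agent.Results.MP_9ee088_an.ApproximateErgodicity

open MeasureTheory

theorem result : ∃ C : ℝ, 0 < C ∧ ∀ a : ℝ, 1 ≤ |a| →
    ∀ T : UnitAddCircle × UnitAddCircle → UnitAddCircle × UnitAddCircle,
    (∀ x y : ℝ, T ((x : UnitAddCircle), (y : UnitAddCircle)) =
      (((2 * x - y + a * Real.sin (2 * Real.pi * x) : ℝ) : UnitAddCircle), (x : UnitAddCircle))) →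
    (∀ n : ℕ, 3 ≤ n → ∀ E E' : Set UnitAddCircle, MeasurableSet E → MeasurableSet E' →
      ∀ (c c' : UnitAddCircle) (r r' : ℝ),
      |volume.real (T^[n] ⁻¹' (E ×ˢ Metric.ball c r) ∩ (E' ×ˢ Metric.ball c' r')) -
          volume.real (E ×ˢ Metric.ball c r) * volume.real (E' ×ˢ Metric.ball c' r')| ≤
        C * √((n : ℝ) / |a|) ∧
      |volume.real (T^[n] ⁻¹' (Metric.ball c r ×ˢ E) ∩ (Metric.ball c' r' ×ˢ E')) -
          volume.real (Metric.ball c r ×ˢ E) * volume.real (Metric.ball c' r' ×ˢ E')| ≤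
        C * √((n : ℝ) / |a|)) ∧
    (∀ E : Set UnitAddCircle, MeasurableSet E → ∀ (c : UnitAddCircle) (r : ℝ)
      (Q : Set (UnitAddCircle × UnitAddCircle)),
      (Q = E ×ˢ Metric.ball c r ∨ Q = Metric.ball c r ×ˢ E) → ∀ k : ℕ, 1 ≤ k →
      (∀ f : UnitAddCircle × UnitAddCircle → ℂ, Measurable f → (∀ p, ‖f p‖ ≤ 1) →
        ∀ z : ℂ, ‖z‖ = 1 → (∀ᵐ p, f (T^[k] p) = z * f p) →
        ‖(∫ p in Q, f p) - (volume.real Q : ℂ) * ∫ p, f p‖ ≤
          C * ((k : ℝ) / |a|) ^ ((1 : ℝ) / 6)) ∧
      (∀ A : Set (UnitAddCircle × UnitAddCircle), MeasurableSet A → T^[k] ⁻¹' A =ᵐ[volume] A →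
        |volume.real (A ∩ Q) - volume.real A * volume.real Q| ≤
          C * ((k : ℝ) / |a|) ^ ((1 : ℝ) / 6))) := by
  have hCM := TH705.SM.CM_pos
  refine ⟨TH705.SM.CF, TH705.SM.CF_pos, fun a ha T hT => ?_⟩
  have hTS : T = TH705.SM.S a := TH705.SM.eq_S a T hT
  subst hTS
  have hCC : TH705.SM.CM ≤ TH705.SM.CF := by
    unfold TH705.SM.CF
    linarith
  refine ⟨?_, ?_⟩
  · intro n hn E E' hE hE' c c' r r'
    have h0 : 0 ≤ √((n : ℝ) / |a|) := Real.sqrt_nonneg _
    have h1 := mul_le_mul_of_nonneg_right hCC h0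
    exact ⟨(TH705.SM.mix ha hn hE hE' c c' r r').trans h1,
      (TH705.SM.mix' ha hn hE hE' c c' r r').trans h1⟩
  · intro E hE c r Q hQ k hk
    have hb : MeasurableSet (Metric.ball c r) := Metric.isOpen_ball.measurableSet
    have hQm : MeasurableSet Q := by
      rcases hQ with h | h
      · rw [h]; exact hE.prod hb
      · rw [h]; exact hb.prod hE
    have hmix : ∀ n : ℕ, 3 ≤ n →
        |volume.real ((TH705.SM.S a)^[n] ⁻¹' Q ∩ Q) - volume.real Q * volume.real Q| ≤
          TH705.SM.CM * √((n : ℝ) / |a|) := by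
      intro n hn
      rcases hQ with h | h
      · rw [h]; exact TH705.SM.mix ha hn hE hE c c r r
      · rw [h]; exact TH705.SM.mix' ha hn hE hE c c r r
    refine ⟨fun f hf hf1 z hz hinv => TH705.SM.eig_final ha hQm hmix hk hf hf1 hz hinv, ?_⟩
    intro A hA hinv
    have hfm : Measurable (A.indicator (fun _ => (1 : ℂ))) := measurable_const.indicator hA
    have hf1 : ∀ p, ‖A.indicator (fun _ => (1 : ℂ)) p‖ ≤ 1 := by
      intro p
      by_cases h : p ∈ A
      · rw [Set.indicator_of_mem h]; simp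
      · rw [Set.indicator_of_notMem h]; simp
    have hfi : ∀ᵐ p, A.indicator (fun _ => (1 : ℂ)) ((TH705.SM.S a)^[k] p) =
        1 * A.indicator (fun _ => (1 : ℂ)) p := by
      filter_upwards [hinv] with p hp
      have hp' : ((TH705.SM.S a)^[k] p ∈ A) = (p ∈ A) := hp
      rw [one_mul]
      by_cases h : p ∈ A
      · have h2 : (TH705.SM.S a)^[k] p ∈ A := by rw [hp']; exact h
        rw [Set.indicator_of_mem h, Set.indicator_of_mem h2]
      · have h2 : (TH705.SM.S a)^[k] p ∉ A := by rw [hp']; exact h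
        rw [Set.indicator_of_notMem h, Set.indicator_of_notMem h2]
    have hmain := TH705.SM.eig_final ha hQm hmix hk hfm hf1 (z := 1) (by simp) hfi
    have e1 : ∫ p in Q, A.indicator (fun _ => (1 : ℂ)) p = ((volume.real (A ∩ Q) : ℝ) : ℂ) := by
      rw [integral_indicator hA, Measure.restrict_restrict hA, setIntegral_const]
      simp
    have e2 : ∫ p, A.indicator (fun _ => (1 : ℂ)) p = ((volume.real A : ℝ) : ℂ) := by
      rw [integral_indicator hA, setIntegral_const]
      simp
    rw [e1, e2, ← Complex.ofReal_mul, ← Complex.ofReal_sub, Complex.norm_real,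
      Real.norm_eq_abs] at hmain
    rw [mul_comm (volume.real A)]
    exact hmain

end Pool.Agent.Results.MP_9ee088_an.ApproximateErgodicity
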