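import Mathlib
import Pool.Agent.TH705.SM.HypE

set_option autoImplicit false

/-!
# The standard map: almost maximal expansion up to time `|a| ^ (2 - ε)`, for every parameter

Let `F_a (x, y) = (2 x - y + a sin 2 π x, x)` on the plane, the lift of the standard map (the
derivative of `F_a ^ n` is periodic, hence a function on the torus). For every `0 < ε < 1` there is a constant `C` such that for **every** real parameter `a`
with `|a| ≥ 1`, all points `p` of the unit square outside a set of measure at most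
`C |a| ^ (-ε / 8)` satisfy

`‖D F_a ^ n (p)‖ ≥ |a| ^ ((1 - ε) n)` for **all** integers `1 ≤ n ≤ |a| ^ (2 - ε)`.

So at almost all points the finite-time Lyapunov exponent is at least `(1 - ε) log |a|` (the
largest possible value is `log |a| + O(1)`) up to times `|a| ^ (2 - ε)`. The time `|a| ^ 2` is the
natural barrier: for suitable arbitrarily large `a` there are elliptic islands of area about
`|a| ^ (-2)`.
-/

namespace Pool.Agent.Results.MP_9ee088_an.FiniteTimeHyperbolicity

open MeasureTheory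

theorem result : ∀ ε : ℝ, 0 < ε → ε < 1 → ∃ C : ℝ, 0 < C ∧ ∀ a : ℝ, 1 ≤ |a| →
    volume {p : ℝ × ℝ | p ∈ Set.Ioc (0 : ℝ) 1 ×ˢ Set.Ioc (0 : ℝ) 1 ∧
      ∃ n : ℕ, 1 ≤ n ∧ (n : ℝ) ≤ |a| ^ (2 - ε) ∧
        ‖fderiv ℝ ((fun q : ℝ × ℝ =>
          (2 * q.1 - q.2 + a * Real.sin (2 * Real.pi * q.1), q.1))^[n]) p‖ <
            |a| ^ ((1 - ε) * n)} ≤
      ENNReal.ofReal (C * |a| ^ (-(ε / 8))) := by
  intro ε hε hε1
  obtain ⟨C, hC, h⟩ := TH705.SM.final_num hε hε1
  refine ⟨C, hC, fun a ha => ?_⟩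
  obtain ⟨B, hB, hgood⟩ := h a ha
  refine le_trans (measure_mono ?_) ((TH705.SM.square_vol B).trans hB)
  rintro ⟨t, s⟩ ⟨hp, n, hn1, hnN, hlt⟩
  refine ⟨hp, ?_⟩
  by_contra hnot
  have h1 := hgood _ hnot n hn1 hnN
  rw [TH705.SM.Dq_eq, TH705.SM.Dq_eq] at h1
  have h2 := TH705.SM.fderiv_ge a s t n
  exact absurd (h1.trans h2) (not_le.2 hlt)

end Pool.Agent.Results.MP_9ee088_an.FiniteTimeHyperbolicity
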