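import Pool.Agent.TH705.SM.CltI

set_option autoImplicit false

/-!
# Gaussian fluctuations and quasilinear diffusion of the standard map, for every large parameter

`F_a(x, y) = (2x - y + a sin 2πx, x)` is the lift of `S_a` to the plane.  Fix the second coordinate
`y` and choose `x` at random in `(0, 1]`.  The normalised Birkhoff sums along the orbit are
asymptotically Gaussian as `n → ∞` and `|a| → ∞` with `n ≤ |a|^(1 - ε)`, with the variance of
independent variables; in particular the momentum displacement is asymptotically Gaussian with the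
quasilinear variance `a² n / 2`.  This holds for all parameters, all `y`, with a rate.
-/

open Real MeasureTheory Filter Topology ProbabilityTheory

namespace Pool.Agent.Results.MP_9ee088_an.GaussianFluctuations

/-- The lift `(x, y) ↦ (2 x - y + a sin 2 π x, x)` of `S_a` to the plane. -/
noncomputable def planeMap (a : ℝ) (p : ℝ × ℝ) : ℝ × ℝ :=
  (2 * p.1 - p.2 + a * sin (2 * π * p.1), p.1)

/-- The normalised Birkhoff sum of the function `f` of the first coordinate, over the first `n`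
points of the orbit of `(x, y)`. -/
noncomputable def birkhoff (f : ℝ → ℝ) (a : ℝ) (n : ℕ) (x y : ℝ) : ℝ :=
  (∑ k ∈ Finset.range n, f ((planeMap a)^[k] (x, y)).1) / √n

/-- The momentum (first minus second coordinate) of the `n`-th point of the orbit. -/
noncomputable def momentum (a : ℝ) (n : ℕ) (x y : ℝ) : ℝ :=
  ((planeMap a)^[n] (x, y)).1 - ((planeMap a)^[n] (x, y)).2

/-- The error `n^(-1/2) + (n/|a|)^(1/2) (1 + log |a|)`. -/
noncomputable def rate (a : ℝ) (n : ℕ) : ℝ := 1 / √n + √(n / |a|) * (1 + log |a|)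

theorem birk_eq (f : ℝ → ℝ) (a : ℝ) (n : ℕ) (x y : ℝ) : birkhoff f a n x y =
    (∑ k ∈ Finset.range n, f (TH705.SM.X a y (k + 1) x)) / √n := by
  unfold birkhoff
  congr 1
  apply Finset.sum_congr rfl
  intro k _
  congr 1
  have h := TH705.SM.iter_plane a y x k
  show ((fun p : ℝ × ℝ => (2 * p.1 - p.2 + a * sin (2 * π * p.1), p.1))^[k] (x, y)).1 = _
  rw [h]

theorem mom_eq (a : ℝ) (n : ℕ) (x y : ℝ) : momentum a n x y - (x - y) =
    a * ∑ k ∈ Finset.range n, sin (2 * π * TH705.SM.X a y (k + 1) x) := by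
  rw [← TH705.SM.momentum]
  unfold momentum
  have h := TH705.SM.iter_plane a y x n
  show ((fun p : ℝ × ℝ => (2 * p.1 - p.2 + a * sin (2 * π * p.1), p.1))^[n] (x, y)).1 -
    ((fun p : ℝ × ℝ => (2 * p.1 - p.2 + a * sin (2 * π * p.1), p.1))^[n] (x, y)).2 - (x - y) = _
  rw [h]

/-- **Gaussian fluctuations and quasilinear diffusion, for every large parameter.** -/
theorem result :
    -- (1) the characteristic function of the normalised Birkhoff sums, on every horizontal line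
    (∀ M : ℝ, 0 ≤ M → ∃ C : ℝ, 0 < C ∧ ∀ f f' : ℝ → ℝ, (∀ x, HasDerivAt f (f' x) x) →
      Continuous f' → (∀ x, f (x + 1) = f x) → (∀ x, |f x| ≤ M) → (∀ x, |f' x| ≤ M) →
      ∫ x in (0:ℝ)..1, f x = 0 → ∀ a : ℝ, 1 ≤ |a| → ∀ n : ℕ, 1 ≤ n → ∀ y τ : ℝ,
      ‖(∫ x in (0:ℝ)..1, Complex.exp (((τ * birkhoff f a n x y : ℝ) : ℂ) * Complex.I)) -
        ((exp (-(τ ^ 2 * (∫ x in (0:ℝ)..1, f x ^ 2) / 2)) : ℝ) : ℂ)‖ ≤
        C * (1 + |τ|) ^ 4 * rate a n) ∧
    -- (2) convergence in distribution to the normal law, on any horizontal lines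
    (∀ f f' : ℝ → ℝ, (∀ x, HasDerivAt f (f' x) x) → Continuous f' → (∀ x, f (x + 1) = f x) →
      ∫ x in (0:ℝ)..1, f x = 0 → ∀ v : ℝ, 0 < v → ∫ x in (0:ℝ)..1, f x ^ 2 = v →
      ∀ (a : ℕ → ℝ) (n : ℕ → ℕ), (∀ j, 1 ≤ |a j|) → (∀ j, 1 ≤ n j) →
      Tendsto (fun j => rate (a j) (n j)) atTop (𝓝 0) → ∀ (y : ℕ → ℝ) (z : ℝ),
      Tendsto (fun j => volume {x : ℝ | x ∈ Set.Ioc (0:ℝ) 1 ∧
        birkhoff f (a j) (n j) x (y j) ≤ z}) atTop (𝓝 (gaussianReal 0 v.toNNReal (Set.Iic z)))) ∧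
    -- (3) the momentum displacement divided by `a √n` is asymptotically normal, variance `1/2`
    (∀ (a : ℕ → ℝ) (n : ℕ → ℕ), (∀ j, 1 ≤ |a j|) → (∀ j, 1 ≤ n j) →
      Tendsto (fun j => rate (a j) (n j)) atTop (𝓝 0) → ∀ (y : ℕ → ℝ) (z : ℝ),
      Tendsto (fun j => volume {x : ℝ | x ∈ Set.Ioc (0:ℝ) 1 ∧
        (momentum (a j) (n j) x (y j) - (x - y j)) / (a j * √(n j)) ≤ z}) atTop
        (𝓝 (gaussianReal 0 (1 / 2) (Set.Iic z)))) := by
  have hclt : ∀ M : ℝ, 0 ≤ M → ∃ C : ℝ, 0 < C ∧ ∀ f f' : ℝ → ℝ,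
    (∀ x, HasDerivAt f (f' x) x) → Continuous f' → Function.Periodic f 1 → (∀ x, |f x| ≤ M) →
    (∀ x, |f' x| ≤ M) → ∫ x in (0:ℝ)..1, f x = 0 → ∀ v : ℝ, ∫ x in (0:ℝ)..1, f x ^ 2 = v →
    ∀ a : ℝ, 1 ≤ |a| → ∀ n : ℕ, 1 ≤ n → ∀ s τ : ℝ,
    ‖(∫ t in (0:ℝ)..1, TH705.SM.E (τ / √n * ∑ k ∈ Finset.range n, f (TH705.SM.X a s (k + 1) t))) -
      ((exp (-(τ ^ 2 * v / 2)) : ℝ) : ℂ)‖ ≤ C * (1 + |τ|) ^ 4 * rate a n :=
    fun M hM => TH705.SM.clt2 hM
  refine ⟨?_, ?_, ?_⟩
  · intro M hM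
    obtain ⟨C, hC, H⟩ := hclt M hM
    refine ⟨C, hC, ?_⟩
    intro f f' d c p b b' f0 a ha n hn y τ
    have h := H f f' d c p b b' f0 _ rfl a ha n hn y τ
    have e : ∀ x, Complex.exp (((τ * birkhoff f a n x y : ℝ) : ℂ) * Complex.I) =
        TH705.SM.E (τ / √n * ∑ k ∈ Finset.range n, f (TH705.SM.X a y (k + 1) x)) := by
      intro x
      unfold TH705.SM.E
      rw [birk_eq]
      congr 3
      ring
    simp_rw [e]
    exact h
  · intro f f' d c p f0 v hv f2 a n ha hn hr y z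
    simp_rw [birk_eq]
    exact TH705.SM.clt_seq hclt d c p f0 hv f2 ha hn hr y z
  · intro a n ha hn hr y z
    have h := TH705.SM.clt_seq hclt (f := fun x => sin (2 * π * x))
      (f' := fun x => cos (2 * π * x) * (2 * π)) (fun x => by
        have h1 := ((hasDerivAt_id x).const_mul (2 * π)).sin
        simpa using h1) (by fun_prop) (fun x => by
        show sin (2 * π * (x + 1)) = sin (2 * π * x)
        rw [mul_add, mul_one, sin_add_two_pi]) TH705.SM.sin_int (v := 1 / 2) (by norm_num)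
      TH705.SM.sin_sq_int ha hn hr y z
    have e1 : (1 / 2 : ℝ).toNNReal = (1 / 2 : NNReal) := by
      rw [Real.toNNReal_div (by norm_num)]
      simp
    rw [e1] at h
    refine h.congr fun j => ?_
    congr 1
    ext x
    have ha0 : a j ≠ 0 := by
      intro h0
      have := ha j
      rw [h0, abs_zero] at this
      linarith
    simp only [Set.mem_ofPred_eq]
    rw [mom_eq, mul_div_mul_left _ _ ha0]

end Pool.Agent.Results.MP_9ee088_an.GaussianFluctuations
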