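import Pool.Agent.TH705.SM.CltR

set_option autoImplicit false

/-!
# Gaussian fluctuations of the finite-time expansion of the standard map

`F_a(x, y) = (2x - y + a sin 2πx, x)` is the lift of `S_a` to the plane.  Fix the second coordinate
`y` and choose `x` at random in `(0, 1]`.  The logarithm of `|∂x_n/∂x|`, where `x_n` is the first
coordinate of the `n`-th point of the orbit, has mean about `n log (π |a|)` and is asymptotically
Gaussian with variance `n π² / 12`, as `|a| → ∞` with `(log |a|)^9 ≤ n ≤ |a|^(1 - ε)`.  This holds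
for all parameters, all `y`, with a rate.
-/

open Real MeasureTheory Filter Topology ProbabilityTheory

namespace Pool.Agent.Results.MP_9ee088_an.LyapunovFluctuations

/-- The lift `(x, y) ↦ (2 x - y + a sin 2 π x, x)` of `S_a` to the plane. -/
noncomputable def planeMap (a : ℝ) (p : ℝ × ℝ) : ℝ × ℝ :=
  (2 * p.1 - p.2 + a * sin (2 * π * p.1), p.1)

/-- The finite-time expansion: the logarithm of `|∂x_n/∂x|`, where `x_n` is the first coordinate of
the `n`-th point of the orbit of `(x, y)`. -/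
noncomputable def expansion (a : ℝ) (n : ℕ) (x y : ℝ) : ℝ :=
  log |deriv (fun t => ((planeMap a)^[n] (t, y)).1) x|

/-- The function `(1/2) log (1 + (2 + 2πa cos 2πx)²)`. -/
noncomputable def gain (a x : ℝ) : ℝ := log (1 + (2 + 2 * π * a * cos (2 * π * x)) ^ 2) / 2

/-- The mean of `gain` over a period. -/
noncomputable def mean (a : ℝ) : ℝ := ∫ x in (0:ℝ)..1, gain a x

/-- The variance of `gain` over a period. -/
noncomputable def variance (a : ℝ) : ℝ := ∫ x in (0:ℝ)..1, (gain a x - mean a) ^ 2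

/-- The error `(1 + log |a|)^4 (n^(-1/2) + (n/|a|)^(1/2))`. -/
noncomputable def rate (a : ℝ) (n : ℕ) : ℝ := (1 + log |a|) ^ 4 * (1 / √n + √(n / |a|))

theorem mean_eq (a : ℝ) : mean a = TH705.SM.hmean a := rfl

theorem variance_eq (a : ℝ) : variance a = TH705.SM.hvar a := rfl

theorem expansion_eq (a : ℝ) (n : ℕ) (x y : ℝ) :
    expansion a n x y = log |TH705.SM.D a y (n + 1) x| := by
  have h : (fun t => ((planeMap a)^[n] (t, y)).1) = TH705.SM.X a y (n + 1) := by
    funext t
    have h := TH705.SM.iter_plane a y t n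
    show ((fun p : ℝ × ℝ => (2 * p.1 - p.2 + a * sin (2 * π * p.1), p.1))^[n] (t, y)).1 = _
    rw [h]
  unfold expansion
  rw [h, (TH705.SM.X_hasDeriv a y (n + 1) x).deriv]

/-- **Gaussian fluctuations of the finite-time expansion, for every large parameter.** -/
theorem result :
    -- (1) the characteristic function, on every horizontal line, with a rate
    (∃ C : ℝ, 0 < C ∧ ∀ a : ℝ, 1 ≤ |a| → ∀ n : ℕ, 1 ≤ n → ∀ y τ : ℝ,
      ‖(∫ x in (0:ℝ)..1,
          Complex.exp (((τ * ((expansion a n x y - n * mean a) / √n) : ℝ) : ℂ) * Complex.I)) -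
        ((exp (-(τ ^ 2 * variance a / 2)) : ℝ) : ℂ)‖ ≤ C * (1 + |τ|) ^ 4 * rate a n) ∧
    -- (2) the mean is `log (π |a|)`, up to `1 / |a|`
    (∀ a : ℝ, 1 ≤ |a| → 0 ≤ mean a - log (π * |a|) ∧ mean a - log (π * |a|) ≤ 1 / |a|) ∧
    -- (3) the variance tends to `π² / 12`
    (∀ a : ℕ → ℝ, (∀ j, 1 ≤ |a j|) → Tendsto (fun j => |a j|) atTop atTop →
      Tendsto (fun j => variance (a j)) atTop (𝓝 (π ^ 2 / 12))) ∧
    -- (4) convergence in distribution to the normal law, on any horizontal lines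
    (∀ (a : ℕ → ℝ) (n : ℕ → ℕ), (∀ j, 1 ≤ |a j|) → (∀ j, 1 ≤ n j) →
      Tendsto (fun j => rate (a j) (n j)) atTop (𝓝 0) → ∀ (y : ℕ → ℝ) (z : ℝ),
      Tendsto (fun j => volume {x : ℝ | x ∈ Set.Ioc (0:ℝ) 1 ∧
        (expansion (a j) (n j) x (y j) - n j * log (π * |a j|)) / √(n j) ≤ z}) atTop
        (𝓝 (gaussianReal 0 (π ^ 2 / 12).toNNReal (Set.Iic z)))) := by
  refine ⟨?_, ?_, ?_, ?_⟩
  · obtain ⟨C, hC, H⟩ := TH705.SM.lclt
    refine ⟨C, hC, ?_⟩
    intro a ha n hn y τ
    have h := H a ha n hn y τ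
    have e : ∀ x, Complex.exp (((τ * ((expansion a n x y - n * mean a) / √n) : ℝ) : ℂ) *
        Complex.I) = TH705.SM.E (τ / √n * (log |TH705.SM.D a y (n + 1) x| -
          n * TH705.SM.hmean a)) := by
      intro x
      unfold TH705.SM.E
      rw [expansion_eq, mean_eq]
      congr 3
      ring
    simp_rw [e]
    rw [variance_eq]
    refine h.trans (le_of_eq ?_)
    unfold rate
    ring
  · intro a ha
    rw [mean_eq]
    exact TH705.SM.hmean_near ha
  · intro a ha hinf
    exact TH705.SM.hvar_lim ha hinf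
  · intro a n ha hn hr y z
    simp_rw [expansion_eq]
    exact TH705.SM.lclt_seq ha hn hr y z

end Pool.Agent.Results.MP_9ee088_an.LyapunovFluctuations
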